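import Pool.Agent.Q170.HC.Concrete

/-!
MP_3984bd_an, Q1: a complete, countably dimensional locally convex space that supports a
hypercyclic operator, over the reals and over the complex numbers.
-/

namespace Pool.Agent.Results.MP_3984bd_an.CompleteHypercyclic

/-- For both scalar fields there is a Hausdorff, complete locally convex space `X` of algebraic
dimension `ℵ₀` with a continuous linear operator `T` and a vector `x` whose orbit is dense. The
uniform structure is the one of the additive topological group (`IsUniformAddGroup`), so
`CompleteSpace` is convergence of all Cauchy nets. -/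
theorem result (𝕜 : Type) [RCLike 𝕜] :
    ∃ (X : Type) (_ : AddCommGroup X) (_ : Module 𝕜 X) (_ : Module ℝ X)
      (_ : IsScalarTower ℝ 𝕜 X) (_ : UniformSpace X) (_ : IsUniformAddGroup X)
      (_ : ContinuousSMul 𝕜 X) (_ : T2Space X) (_ : LocallyConvexSpace ℝ X)
      (_ : CompleteSpace X),
      Module.rank 𝕜 X = Cardinal.aleph0 ∧
      ∃ (T : X →L[𝕜] X) (x : X), Dense (Set.range fun n : ℕ => (T ^ n) x) :=
  Q170.HC.main 𝕜

end Pool.Agent.Results.MP_3984bd_an.CompleteHypercyclic
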